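import Mathlib

/-!
# Core of the Penrose-star argument

`InE τ a b` describes the union of five rhombi in the coordinates `a = Im p`,
`b = Im (ζ⁻¹ p)`, `ζ = exp (2πi/5)`, `τ = 2 cos (2π/5)`.
-/

namespace Pool.Agent.Y369.LC

/-- The five rhombi: `a_j ∈ [0,1/2]`, `a_{j+1} ∈ [-1/2,0]`, where `a_0 = a`, `a_1 = b`,
`a_{j+1} = τ a_j - a_{j-1}` and `τ² = 1 - τ`. -/
def InE (τ a b : ℝ) : Prop :=
  (0 ≤ a ∧ a ≤ 1/2 ∧ -(1/2) ≤ b ∧ b ≤ 0) ∨
  (0 ≤ b ∧ b ≤ 1/2 ∧ -(1/2) ≤ τ * b - a ∧ τ * b - a ≤ 0) ∨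
  (0 ≤ τ * b - a ∧ τ * b - a ≤ 1/2 ∧ -(1/2) ≤ -τ * (a + b) ∧ -τ * (a + b) ≤ 0) ∨
  (0 ≤ -τ * (a + b) ∧ -τ * (a + b) ≤ 1/2 ∧ -(1/2) ≤ τ * a - b ∧ τ * a - b ≤ 0) ∨
  (0 ≤ τ * a - b ∧ τ * a - b ≤ 1/2 ∧ -(1/2) ≤ a ∧ a ≤ 0)

section

variable {τ S : ℝ}

theorem tau_lt (hτ : τ ^ 2 = 1 - τ) (h0 : 0 < τ) : 0.618 < τ ∧ τ < 0.6181 := by
  constructor <;> nlinarith

/-- The upper block `0 ≤ a ≤ 1/2`, `|b| ≤ 1/2` is inside. -/
theorem inE_U0 (hτ : τ ^ 2 = 1 - τ) (h0 : 0 < τ) {a b : ℝ} (ha0 : 0 ≤ a) (ha : a ≤ 1/2)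
    (hb0 : -(1/2) ≤ b) (hb : b ≤ 1/2) : InE τ a b := by
  obtain ⟨t1, t2⟩ := tau_lt hτ h0
  unfold InE
  rcases le_total b 0 with h | h
  · left; exact ⟨ha0, ha, hb0, h⟩
  · rcases le_total (τ * b - a) 0 with h' | h'
    · right; left
      refine ⟨h, hb, ?_, h'⟩
      nlinarith [mul_nonneg h0.le h]
    · right; right; left
      have hab : 0 ≤ a + b := add_nonneg ha0 h
      refine ⟨h', ?_, ?_, ?_⟩
      · nlinarith
      · nlinarith [mul_nonneg h0.le hab, mul_nonneg h0.le h', mul_le_mul_of_nonneg_left hb h0.le,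
          mul_nonneg h0.le (sub_nonneg.2 hb)]
      · nlinarith [mul_nonneg h0.le hab]

/-- The lower block `-1/2 ≤ a ≤ 0`, `|τ a - b| ≤ 1/2` is inside. -/
theorem inE_L0 (hτ : τ ^ 2 = 1 - τ) (h0 : 0 < τ) {a b d : ℝ} (hd : d = τ * a - b)
    (ha0 : -(1/2) ≤ a) (ha : a ≤ 0)
    (hd0 : -(1/2) ≤ d) (hd1 : d ≤ 1/2) : InE τ a b := by
  obtain ⟨t1, t2⟩ := tau_lt hτ h0
  have hb : b = τ * a - d := by linarith
  subst hb
  unfold InE
  rcases le_total 0 d with h | h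
  · right; right; right; right
    refine ⟨by linarith, by linarith, ha0, ha⟩
  · have e1 : -τ * (a + (τ * a - d)) = τ * d - a := by
      linear_combination (-a) * hτ
    have e2 : τ * (τ * a - d) - a = -τ * (a + d) := by
      linear_combination a * hτ
    rw [e1, e2]
    rcases le_total 0 (τ * d - a) with h' | h'
    · right; right; right; left
      refine ⟨h', ?_, by linarith, by linarith⟩
      nlinarith [mul_nonneg h0.le (neg_nonneg.2 h)]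
    · right; right; left
      have hab : 0 ≤ -(a + d) := by linarith
      refine ⟨?_, ?_, ?_, h'⟩
      · nlinarith [mul_nonneg h0.le hab]
      · nlinarith [mul_nonneg h0.le hab, mul_nonneg h0.le (neg_nonneg.2 h),
          mul_nonneg h0.le (sub_nonneg.2 hd0)]
      · nlinarith [mul_nonneg h0.le (neg_nonneg.2 h), mul_nonneg h0.le (sub_nonneg.2 hd0)]

end

end Pool.Agent.Y369.LC
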