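import Pool.Agent.Y369.LC.Core

/-!
# The core lemma: small rotation angles
-/

namespace Pool.Agent.Y369.LC

/-- The data of a small rotation `(c, s)`, with the derived numbers
`σm = S c - k s`, `σp = S c + k s`, `κm = k c + S s`, `κp = k c - S s` (`k = τ/2`)
and the inequalities used below. -/
structure Dat (τ S c s σm σp κm κp : ℝ) : Prop where
  tau : τ ^ 2 = 1 - τ
  tau0 : 0 < τ
  S0 : 0 < S
  S1 : S ≤ 1
  s0 : 0 ≤ s
  c1 : c ≤ 1
  sm0 : 0 < σm
  sp0 : 0 < σp
  sm1 : σm ≤ 1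
  sp1 : σp ≤ 1
  kp0 : 0 ≤ κp
  hs : s ≤ τ * σp
  big : σp * (S * s) ≤ σm / 2 + s * (κp - σp)
  e4 : σp = τ * s + σm
  f4 : κp = τ * c - κm
  HfM : σm * c + s * κm = S
  HfP : σp * c - s * κp = S
  km : c + κm - 1 - τ / 2 ≤ S * s

theorem mkDat {τ S c s : ℝ} (hτ : τ ^ 2 = 1 - τ) (h0 : 0 < τ) (hS : 0 < S)
    (hSk : S ^ 2 + (τ / 2) ^ 2 = 1) (hcs : c ^ 2 + s ^ 2 = 1) (hc : 0 < c) (hs0 : 0 ≤ s)
    (hs1 : s ≤ 0.16) :
    Dat τ S c s (S * c - τ / 2 * s) (S * c + τ / 2 * s) (τ / 2 * c + S * s)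
      (τ / 2 * c - S * s) := by
  obtain ⟨t1, t2⟩ := tau_lt hτ h0
  have S1 : 0.951 < S := by nlinarith
  have S2 : S < 0.9511 := by nlinarith
  have c1 : 0.987 < c := by nlinarith
  have c2 : c ≤ 1 := by nlinarith
  have Sc1 : 0.938 < S * c := by nlinarith
  have Sc2 : S * c < 0.952 := by nlinarith
  have ks0 : 0 ≤ τ / 2 * s := by positivity
  have ks1 : τ / 2 * s ≤ 0.05 := by nlinarith
  have Ss0 : 0 ≤ S * s := by positivity
  have Ss1 : S * s ≤ 0.1525 := by nlinarith
  have kc1 : 0.304 < τ / 2 * c := by nlinarith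
  have kc2 : τ / 2 * c < 0.3092 := by nlinarith
  have cau : (S * c + τ / 2 * s) ^ 2 ≤ 1 := by
    nlinarith [sq_nonneg (S * s - τ / 2 * c)]
  have sp1 : S * c + τ / 2 * s ≤ 1 := by nlinarith
  refine ⟨hτ, h0, hS, by linarith, hs0, c2, by linarith, by linarith, by linarith, sp1,
    by linarith, by nlinarith, ?_, by ring, by ring, ?_, ?_, ?_⟩
  · have h1 : (S * c + τ / 2 * s) * (S * s) ≤ 0.1525 := by nlinarith
    have h2 : -0.16 ≤ s * ((τ / 2 * c - S * s) - (S * c + τ / 2 * s)) := by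
      nlinarith
    linarith
  · linear_combination S * hcs
  · linear_combination S * hcs
  · nlinarith

variable {τ S c s σm σp κm κp : ℝ}

/-- Case A of the core lemma. -/
theorem caseA (D : Dat τ S c s σm σp κm κp) {a b : ℝ}
    (hH : -(σp / 2) ≤ σm * a + s * b) (hA : σm * a + s * b ≤ (σm - s) / 2) :
    ∃ m : ℤ, InE τ (a + m * s) (b - m * σm) := by
  obtain ⟨tau, tau0, S0, S1, s0, c1, sm0, sp0, sm1, sp1, kp0, hs, big, e4, f4, HfM, HfP, km⟩ := D
  obtain ⟨t1, t2⟩ := tau_lt tau tau0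
  obtain ⟨m, h1, h2, h3⟩ : ∃ m : ℤ, 1/2 - σm < m * σm - b ∧ 1/2 - σp < (τ * a - b) + m * σp ∧
      (m * σm - b ≤ 1/2 ∨ (τ * a - b) + m * σp ≤ 1/2) := by
    have A1 := Int.lt_floor_add_one ((1/2 + b) / σm)
    have A2 := Int.floor_le ((1/2 + b) / σm)
    have B1 := Int.lt_floor_add_one ((1/2 - (τ * a - b)) / σp)
    have B2 := Int.floor_le ((1/2 - (τ * a - b)) / σp)
    rw [div_lt_iff₀ sm0] at A1
    rw [le_div_iff₀ sm0] at A2
    rw [div_lt_iff₀ sp0] at B1
    rw [le_div_iff₀ sp0] at B2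
    rcases le_total ⌊(1/2 + b) / σm⌋ ⌊(1/2 - (τ * a - b)) / σp⌋ with h | h
    · refine ⟨⌊(1/2 - (τ * a - b)) / σp⌋, ?_, by linarith, Or.inr (by linarith)⟩
      have h' : (⌊(1/2 + b) / σm⌋ : ℝ) ≤ ⌊(1/2 - (τ * a - b)) / σp⌋ := by exact_mod_cast h
      nlinarith [mul_le_mul_of_nonneg_right h' sm0.le]
    · refine ⟨⌊(1/2 + b) / σm⌋, by linarith, ?_, Or.inl (by linarith)⟩
      have h' : (⌊(1/2 - (τ * a - b)) / σp⌋ : ℝ) ≤ ⌊(1/2 + b) / σm⌋ := by exact_mod_cast h
      nlinarith [mul_le_mul_of_nonneg_right h' sp0.le]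
  refine ⟨m, ?_⟩
  -- coordinates of the new point
  set y : ℝ := a + m * s with hy
  set b' : ℝ := b - m * σm with hb'
  have hd : (τ * a - b) + m * σp = τ * y - b' := by
    rw [hy, hb', e4]; ring
  rw [hd] at h2 h3
  have hb1 : m * σm - b = -b' := by rw [hb']; ring
  rw [hb1] at h1 h3
  have hHy : σm * y + s * b' = σm * a + s * b := by rw [hy, hb']; ring
  have hHy' : σp * y - s * (τ * y - b') = σm * a + s * b := by
    rw [← hHy, e4]; ring
  rcases le_or_gt y (1/2) with hy1 | hy1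
  · rcases le_total 0 y with hy0 | hy0
    · -- 0 ≤ y ≤ 1/2
      refine inE_U0 tau tau0 hy0 hy1 ?_ (by linarith)
      rcases h3 with h3 | h3
      · linarith
      · nlinarith [mul_nonneg tau0.le hy0]
    · rcases le_or_gt (-(1/2)) y with hy2 | hy2
      · -- -1/2 ≤ y ≤ 0
        refine inE_L0 tau tau0 rfl hy2 hy0 (by linarith) ?_
        rcases h3 with h3 | h3
        · nlinarith [mul_nonneg tau0.le (neg_nonneg.2 hy0)]
        · exact h3
      · -- y < -1/2
        have e3 : -τ * (y + b') = τ * (τ * y - b') - y := by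
          linear_combination (-y) * tau
        have h4a : s * (τ * y - b') < 0 := by
          nlinarith [mul_pos sp0 (sub_pos.2 hy2)]
        have h4 : τ * y - b' < 0 := by
          by_contra hcon
          push Not at hcon
          nlinarith [mul_nonneg s0 hcon]
        have h4' : -(1/2) ≤ τ * y - b' := by linarith
        right; right; right; left
        rw [e3]
        refine ⟨?_, ?_, h4', h4.le⟩
        · nlinarith [mul_nonneg tau0.le (by linarith : (0:ℝ) ≤ τ * y - b' + 1/2)]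
        · -- σp (y + 1/2) ≥ s d, s ≤ τ σp
          have k1 : s * (τ * y - b') ≤ σp * (y + 1/2) := by linarith
          have k2 : τ * σp * (τ * y - b') ≤ s * (τ * y - b') := by
            nlinarith [mul_nonneg (sub_nonneg.2 hs) (neg_nonneg.2 h4.le)]
          have k3 : σp * (τ * (τ * y - b')) ≤ σp * (y + 1/2) := by linarith
          have k4 := le_of_mul_le_mul_left k3 sp0
          linarith
  · -- y > 1/2 is impossible
    exfalso
    have k1 : s * (b' + 1/2) < 0 := by
      nlinarith [mul_pos sm0 (sub_pos.2 hy1)]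
    have k2 : b' + 1/2 < 0 := by
      by_contra hcon
      push Not at hcon
      nlinarith [mul_nonneg s0 hcon]
    rcases h3 with h3 | h3
    · linarith
    · nlinarith [mul_pos tau0 (by linarith : (0:ℝ) < y)]

/-- Case B of the core lemma. -/
theorem caseB (D : Dat τ S c s σm σp κm κp) {a b : ℝ}
    (hH : σm * a + s * b < S - σp / 2) (hB : (σm - s) / 2 < σm * a + s * b) :
    ∃ m n : ℤ, InE τ (a + m * s + n * c) (b - m * σm + n * κm) := by
  obtain ⟨tau, tau0, S0, S1, s0, c1, sm0, sp0, sm1, sp1, kp0, hs, big, e4, f4, HfM, HfP, km⟩ := D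
  obtain ⟨t1, t2⟩ := tau_lt tau tau0
  obtain ⟨m, h1, h2⟩ : ∃ m : ℤ, 1/2 - σp < (τ * a - b) + m * σp - κp ∧
      (τ * a - b) + m * σp - κp ≤ 1/2 := by
    have B1 := Int.lt_floor_add_one ((1/2 + κp - (τ * a - b)) / σp)
    have B2 := Int.floor_le ((1/2 + κp - (τ * a - b)) / σp)
    rw [div_lt_iff₀ sp0] at B1
    rw [le_div_iff₀ sp0] at B2
    exact ⟨⌊(1/2 + κp - (τ * a - b)) / σp⌋, by linarith, by linarith⟩
  -- coordinates of the new point `p`
  obtain ⟨y, hy⟩ : ∃ y : ℝ, y = a + m * s := ⟨_, rfl⟩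
  obtain ⟨b', hb'⟩ : ∃ b' : ℝ, b' = b - m * σm := ⟨_, rfl⟩
  have hd : (τ * a - b) + m * σp = τ * y - b' := by
    rw [hy, hb', e4]; ring
  rw [hd] at h1 h2
  have hHy : σm * y + s * b' = σm * a + s * b := by rw [hy, hb']; ring
  have hHy' : σp * y - s * (τ * y - b') = σm * a + s * b := by
    rw [← hHy, e4]; ring
  -- `y ≥ S s`
  have hyS : S * s ≤ y := by
    have k1 : σp * (S * s) ≤ σp * y := by
      nlinarith [mul_nonneg s0 (by linarith : (0:ℝ) ≤ (τ * y - b') - κp - 1/2 + σp)]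
    exact le_of_mul_le_mul_left k1 sp0
  have hy0 : 0 ≤ y := le_trans (mul_nonneg S0.le s0) hyS
  -- coordinates of `q = p - f`
  have hdq : τ * (y - c) - (b' - κm) = τ * y - b' - κp := by rw [f4]; ring
  have hP : ∀ {u v : ℝ}, InE τ u v → u = y → v = b' →
      ∃ m n : ℤ, InE τ (a + m * s + n * c) (b - m * σm + n * κm) := by
    intro u v h hu hv
    refine ⟨m, 0, ?_⟩
    have e1 : a + m * s + ((0 : ℤ) : ℝ) * c = u := by rw [hu, hy]; push_cast; ring
    have e2 : b - m * σm + ((0 : ℤ) : ℝ) * κm = v := by rw [hv, hb']; push_cast; ring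
    rw [e1, e2]; exact h
  have hQ : ∀ {u v : ℝ}, InE τ u v → u = y - c → v = b' - κm →
      ∃ m n : ℤ, InE τ (a + m * s + n * c) (b - m * σm + n * κm) := by
    intro u v h hu hv
    refine ⟨m, -1, ?_⟩
    have e1 : a + m * s + ((-1 : ℤ) : ℝ) * c = u := by rw [hu, hy]; push_cast; ring
    have e2 : b - m * σm + ((-1 : ℤ) : ℝ) * κm = v := by rw [hv, hb']; push_cast; ring
    rw [e1, e2]; exact h
  rcases le_or_gt (c - 1/2) y with hyc | hyc
  · -- (i)
    refine hQ (inE_L0 (a := y - c) (b := b' - κm) (d := τ * y - b' - κp) tau tau0 hdq.symm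
      (by linarith) ?_ (by linarith) (by linarith)) rfl rfl
    have k1 : σp * (y - c) ≤ 0 := by
      have : σp * (y - c) = (σm * a + s * b) - S + s * (τ * y - b' - κp) := by
        rw [← hHy', ← HfP]; ring
      have k2 : s * (τ * y - b' - κp) ≤ s * (1/2) := mul_le_mul_of_nonneg_left h2 s0
      have k3 : s ≤ σp := by nlinarith
      linarith
    by_contra hcon
    push Not at hcon
    nlinarith [mul_pos sp0 hcon]
  · rcases le_or_gt b' (1/2) with hb2 | hb2
    · -- (ii)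
      refine hP (inE_U0 (a := y) (b := b') tau tau0 hy0 (by linarith) ?_ hb2) rfl rfl
      have k1 : 0 < s * (b' + 1/2) := by
        nlinarith [mul_pos sm0 (by linarith : (0:ℝ) < 1/2 - y)]
      have k2 : 0 < b' + 1/2 := by
        by_contra hcon
        push Not at hcon
        have := mul_nonneg s0 (neg_nonneg.2 hcon)
        linarith
      linarith
    · -- (iii)
      have e3 : -τ * ((y - c) + (b' - κm)) = τ * (τ * y - b' - κp) - (y - c) := by
        rw [← hdq]; linear_combination (-(y - c)) * tau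
      have h4 : τ * y - b' - κp < 0 := by
        nlinarith [mul_pos tau0 (by linarith : (0:ℝ) < 1/2 - y)]
      refine hQ (u := y - c) (v := b' - κm) ?_ rfl rfl
      right; right; right; left
      refine ⟨?_, ?_, ?_, ?_⟩
      · rw [e3]
        nlinarith [mul_nonneg tau0.le (by linarith : (0:ℝ) ≤ τ * y - b' - κp + 1/2)]
      · -- `y - c + b' - κm ≥ -1/(2τ) = -(1/2 + τ/2)`
        have k1 : -(1/2 + τ / 2) ≤ (y - c) + (b' - κm) := by linarith
        nlinarith [mul_nonneg tau0.le (by linarith : (0:ℝ) ≤ (y - c) + (b' - κm) + (1/2 + τ / 2))]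
      · rw [hdq]; linarith
      · rw [hdq]; linarith

end Pool.Agent.Y369.LC
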