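import Pool.Agent.Y369.LC.Core2

/-!
# The star in the complex plane; all rotations and all isometries
-/

namespace Pool.Agent.Y369.LC

open Real

/-- `τ = 2 cos 72°`. -/
noncomputable def tau : ℝ := 2 * cos (2 * π / 5)

/-- `S = sin 72°`. -/
noncomputable def sS : ℝ := sin (2 * π / 5)

theorem cos72 : cos (2 * π / 5) = (√5 - 1) / 4 := by
  have h : 2 * π / 5 = 2 * (π / 5) := by ring
  rw [h, cos_two_mul, cos_pi_div_five]
  have h5 : √5 ^ 2 = 5 := Real.sq_sqrt (by norm_num)
  linear_combination (1/8) * h5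

theorem tau_eq : tau = (√5 - 1) / 2 := by
  rw [tau, cos72]; ring

theorem tau_sq : tau ^ 2 = 1 - tau := by
  have h5 : √5 ^ 2 = 5 := Real.sq_sqrt (by norm_num)
  rw [tau_eq]; linear_combination (1/4) * h5

theorem tau_pos : 0 < tau := by
  rw [tau_eq]
  have : 1 < √5 := by
    rw [Real.lt_sqrt (by norm_num)]; norm_num
  linarith

theorem sS_pos : 0 < sS := by
  apply sin_pos_of_pos_of_lt_pi
  · positivity
  · have := pi_pos; linarith

theorem sS_sq : sS ^ 2 + (tau / 2) ^ 2 = 1 := by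
  have := sin_sq_add_cos_sq (2 * π / 5)
  rw [sS, tau]; linear_combination this

theorem inE_rot {a b : ℝ} : InE tau (tau * a - b) a ↔ InE tau a b := by
  unfold InE
  have e1 : tau * a - (tau * a - b) = b := by ring
  have e2 : -tau * ((tau * a - b) + a) = tau * b - a := by
    linear_combination (-a) * tau_sq
  have e3 : tau * (tau * a - b) - a = -tau * (a + b) := by
    linear_combination a * tau_sq
  rw [e1, e2, e3]
  tauto

theorem inE_conj {a b : ℝ} : InE tau (-a) (-(tau * a - b)) ↔ InE tau a b := by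
  unfold InE
  have e1 : tau * (-(tau * a - b)) - (-a) = -(-tau * (a + b)) := by
    linear_combination (-a) * tau_sq
  have e2 : -tau * (-a + -(tau * a - b)) = -(tau * b - a) := by
    linear_combination a * tau_sq
  have e3 : tau * (-a) - (-(tau * a - b)) = -b := by ring
  rw [e1, e2, e3]
  have key : ∀ u v : ℝ, (0 ≤ -u ∧ -u ≤ 1/2 ∧ -(1/2) ≤ -v ∧ -v ≤ 0) ↔
      (0 ≤ v ∧ v ≤ 1/2 ∧ -(1/2) ≤ u ∧ u ≤ 0) := by
    intro u v
    constructor
    · rintro ⟨h1, h2, h3, h4⟩
      exact ⟨by linarith, by linarith, by linarith, by linarith⟩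
    · rintro ⟨h1, h2, h3, h4⟩
      exact ⟨by linarith, by linarith, by linarith, by linarith⟩
  rw [key, key, key, key, key]
  tauto

/-- The star in the complex plane. -/
def EC : Set ℂ := {p | InE tau p.im (tau / 2 * p.im - sS * p.re)}

/-- The fifth root of unity. -/
noncomputable def zeta : ℂ := ⟨tau / 2, sS⟩

theorem zeta_mul_mem {p : ℂ} : zeta * p ∈ EC ↔ p ∈ EC := by
  have h1 : (zeta * p).im = tau * p.im - (tau / 2 * p.im - sS * p.re) := by
    simp [zeta, Complex.mul_im]; ring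
  have h2 : tau / 2 * (zeta * p).im - sS * (zeta * p).re = p.im := by
    simp only [zeta, Complex.mul_im, Complex.mul_re]
    linear_combination p.im * sS_sq
  show InE _ _ _ ↔ InE _ _ _
  rw [h2, h1]
  exact inE_rot

theorem conj_mem {p : ℂ} : (starRingEnd ℂ) p ∈ EC ↔ p ∈ EC := by
  show InE _ _ _ ↔ InE _ _ _
  rw [Complex.conj_im, Complex.conj_re]
  have : tau / 2 * -p.im - sS * p.re = -(tau * p.im - (tau / 2 * p.im - sS * p.re)) := by ring
  rw [this]
  exact inE_conj

/-- `P u`: the rotated lattice `u ℤ[i]` meets every translate of the star. -/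
def P (u : ℂ) : Prop := ∀ w : ℂ, ∃ m n : ℤ, w + u * ((m : ℂ) + n * Complex.I) ∈ EC

theorem P_core {u : ℂ} (h1 : u.re ^ 2 + u.im ^ 2 = 1) (h2 : 0 < u.re) (h3 : 0 ≤ u.im)
    (h4 : u.im ≤ 0.16) : P u := by
  intro w
  obtain ⟨c, s⟩ := u
  simp only at h1 h2 h3 h4
  have D := mkDat tau_sq tau_pos sS_pos sS_sq h1 h2 h3 h4
  set σm := sS * c - tau / 2 * s with hσm
  set σp := sS * c + tau / 2 * s with hσp
  set κm := tau / 2 * c + sS * s with hκm
  set κp := tau / 2 * c - sS * s with hκp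
  set a := w.im with ha
  set b := tau / 2 * w.im - sS * w.re with hb
  have key : ∀ m n : ℤ, InE tau (a + m * s + n * c) (b - m * σm + n * κm) →
      w + (⟨c, s⟩ : ℂ) * ((m : ℂ) + n * Complex.I) ∈ EC := by
    intro m n h
    show InE _ _ _
    have e1 : (w + (⟨c, s⟩ : ℂ) * ((m : ℂ) + n * Complex.I)).im = a + m * s + n * c := by
      simp [Complex.mul_im, Complex.mul_re, ha]; ring
    have e2 : (w + (⟨c, s⟩ : ℂ) * ((m : ℂ) + n * Complex.I)).re = w.re + m * c - n * s := by
      simp [Complex.mul_im, Complex.mul_re]; ring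
    rw [e1, e2]
    have e3 : tau / 2 * (a + m * s + n * c) - sS * (w.re + m * c - n * s)
        = b - m * σm + n * κm := by
      rw [hσm, hκm, hb, ha]; ring
    rw [e3]; exact h
  -- choose the row
  obtain ⟨n0, r1, r2⟩ : ∃ n0 : ℤ, -(σp / 2) ≤ (σm * a + s * b) + n0 * sS ∧
      (σm * a + s * b) + n0 * sS < sS - σp / 2 := by
    have B1 := Int.lt_floor_add_one (((σm * a + s * b) + σp / 2) / sS)
    have B2 := Int.floor_le (((σm * a + s * b) + σp / 2) / sS)
    rw [div_lt_iff₀ sS_pos] at B1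
    rw [le_div_iff₀ sS_pos] at B2
    refine ⟨-⌊((σm * a + s * b) + σp / 2) / sS⌋, ?_, ?_⟩
    · push_cast; linarith
    · push_cast; linarith
  have hH : σm * (a + n0 * c) + s * (b + n0 * κm) = (σm * a + s * b) + n0 * sS := by
    have := D.HfM
    linear_combination (n0 : ℝ) * this
  rw [← hH] at r1 r2
  rcases le_or_gt (σm * (a + n0 * c) + s * (b + n0 * κm)) ((σm - s) / 2) with hA | hB
  · obtain ⟨m, hm⟩ := caseA D r1 hA
    refine ⟨m, n0, key m n0 ?_⟩
    have e1 : a + m * s + n0 * c = a + n0 * c + m * s := by ring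
    have e2 : b - m * σm + n0 * κm = b + n0 * κm - m * σm := by ring
    rw [e1, e2]; exact hm
  · obtain ⟨m, n, hm⟩ := caseB D r2 hB
    refine ⟨m, n0 + n, key m (n0 + n) ?_⟩
    have e1 : a + m * s + ((n0 + n : ℤ) : ℝ) * c = a + n0 * c + m * s + n * c := by
      push_cast; ring
    have e2 : b - m * σm + ((n0 + n : ℤ) : ℝ) * κm = b + n0 * κm - m * σm + n * κm := by
      push_cast; ring
    rw [e1, e2]; exact hm

theorem P_conj {u : ℂ} (h : P u) : P ((starRingEnd ℂ) u) := by
  intro w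
  obtain ⟨m, n, hm⟩ := h ((starRingEnd ℂ) w)
  refine ⟨m, -n, ?_⟩
  rw [← conj_mem]
  have : (starRingEnd ℂ) (w + (starRingEnd ℂ) u * ((m : ℂ) + ((-n : ℤ) : ℂ) * Complex.I))
      = (starRingEnd ℂ) w + u * ((m : ℂ) + n * Complex.I) := by
    simp
  rw [this]; exact hm

theorem P_I {u : ℂ} : P (Complex.I * u) ↔ P u := by
  constructor
  · intro h w
    obtain ⟨m, n, hm⟩ := h w
    refine ⟨-n, m, ?_⟩
    have : w + u * (((-n : ℤ) : ℂ) + (m : ℂ) * Complex.I) =
        w + Complex.I * u * ((m : ℂ) + n * Complex.I) := by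
      push_cast
      linear_combination (-u * (n : ℂ)) * Complex.I_sq
    rw [this]; exact hm
  · intro h w
    obtain ⟨m, n, hm⟩ := h w
    refine ⟨n, -m, ?_⟩
    have : w + Complex.I * u * ((n : ℂ) + ((-m : ℤ) : ℂ) * Complex.I) =
        w + u * ((m : ℂ) + n * Complex.I) := by
      push_cast
      linear_combination (-u * (m : ℂ)) * Complex.I_sq
    rw [this]; exact hm

theorem zeta_ne : zeta ≠ 0 := by
  intro h
  have := congrArg Complex.im h
  simp [zeta] at this
  exact sS_pos.ne' this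

theorem P_zeta {u : ℂ} : P (zeta * u) ↔ P u := by
  constructor
  · intro h w
    obtain ⟨m, n, hm⟩ := h (zeta * w)
    refine ⟨m, n, ?_⟩
    rw [← zeta_mul_mem]
    have : zeta * (w + u * ((m : ℂ) + n * Complex.I)) =
        zeta * w + zeta * u * ((m : ℂ) + n * Complex.I) := by ring
    rw [this]; exact hm
  · intro h w
    obtain ⟨m, n, hm⟩ := h (zeta⁻¹ * w)
    refine ⟨m, n, ?_⟩
    rw [← zeta_mul_mem] at hm
    have : zeta * (zeta⁻¹ * w + u * ((m : ℂ) + n * Complex.I)) =
        w + zeta * u * ((m : ℂ) + n * Complex.I) := by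
      have h0 : zeta * (zeta⁻¹ * w) = w := mul_inv_cancel_left₀ zeta_ne w
      rw [mul_add, h0]; ring
    rw [this] at hm; exact hm

/-- `θ = exp (iπ/10)`. -/
noncomputable def theta : ℂ := Complex.exp (((π / 10 : ℝ) : ℂ) * Complex.I)

theorem theta_zeta : zeta * theta = Complex.I := by
  have h1 : zeta = Complex.exp (((2 * π / 5 : ℝ) : ℂ) * Complex.I) := by
    rw [Complex.exp_mul_I]
    apply Complex.ext
    · simp [zeta, tau, -Complex.ofReal_mul, -Complex.ofReal_div, ← Complex.ofReal_cos,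
        ← Complex.ofReal_sin]
    · simp [zeta, sS, -Complex.ofReal_mul, -Complex.ofReal_div, ← Complex.ofReal_cos,
        ← Complex.ofReal_sin]
  rw [h1, theta, ← Complex.exp_add]
  have : ((2 * π / 5 : ℝ) : ℂ) * Complex.I + ((π / 10 : ℝ) : ℂ) * Complex.I
      = (π : ℂ) / 2 * Complex.I := by
    push_cast; ring
  rw [this, Complex.exp_pi_div_two_mul_I]

theorem P_theta {u : ℂ} : P (theta * u) ↔ P u := by
  rw [← P_zeta, ← mul_assoc, theta_zeta, P_I]

theorem P_theta_zpow (k : ℤ) {u : ℂ} : P (theta ^ k * u) ↔ P u := by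
  have h0 : theta ≠ 0 := Complex.exp_ne_zero _
  induction k using Int.induction_on with
  | zero => simp
  | succ i ih =>
    rw [zpow_add_one₀ h0, mul_comm (theta ^ (i : ℤ)) theta, mul_assoc, P_theta]
    exact ih
  | pred i ih =>
    rw [← P_theta, ← mul_assoc, mul_comm theta, ← zpow_add_one₀ h0]
    simpa using ih

theorem P_exp_small {φ : ℝ} (h0 : 0 ≤ φ) (h1 : φ ≤ π / 20) :
    P (Complex.exp ((φ : ℂ) * Complex.I)) := by
  have hπ := pi_lt_d2
  have hπ0 := pi_pos
  have e1 : (Complex.exp ((φ : ℂ) * Complex.I)).re = cos φ := by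
    rw [Complex.exp_ofReal_mul_I_re]
  have e2 : (Complex.exp ((φ : ℂ) * Complex.I)).im = sin φ := by
    rw [Complex.exp_ofReal_mul_I_im]
  apply P_core
  · rw [e1, e2]; exact cos_sq_add_sin_sq φ
  · rw [e1]; exact cos_pos_of_mem_Ioo ⟨by linarith, by linarith⟩
  · rw [e2]; exact sin_nonneg_of_nonneg_of_le_pi h0 (by linarith)
  · rw [e2]
    have := sin_le h0
    linarith

theorem P_exp_small' {φ : ℝ} (h1 : |φ| ≤ π / 20) :
    P (Complex.exp ((φ : ℂ) * Complex.I)) := by
  rcases le_total 0 φ with h | h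
  · exact P_exp_small h (by rwa [abs_of_nonneg h] at h1)
  · have h2 : P (Complex.exp (((-φ : ℝ) : ℂ) * Complex.I)) :=
      P_exp_small (by linarith) (by rwa [abs_of_nonpos h] at h1)
    have h3 := P_conj h2
    rw [← Complex.exp_conj] at h3
    simpa using h3

theorem P_exp (α : ℝ) : P (Complex.exp ((α : ℂ) * Complex.I)) := by
  have hπ := pi_pos
  set k : ℤ := round (α / (π / 10)) with hk
  have h1 : |α - k * (π / 10)| ≤ π / 20 := by
    have h := abs_sub_round (α / (π / 10))
    rw [← hk] at h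
    have h2 : α - k * (π / 10) = (α / (π / 10) - k) * (π / 10) := by
      field_simp
    rw [h2, abs_mul, abs_of_pos (by positivity : (0:ℝ) < π / 10)]
    nlinarith
  have h2 := P_exp_small' h1
  have h3 : Complex.exp ((α : ℂ) * Complex.I) =
      theta ^ k * Complex.exp (((α - k * (π / 10) : ℝ) : ℂ) * Complex.I) := by
    rw [theta, ← Complex.exp_int_mul, ← Complex.exp_add]
    congr 1
    push_cast; ring
  rw [h3, P_theta_zpow]
  exact h2

theorem P_unit {u : ℂ} (hu : ‖u‖ = 1) : P u := by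
  obtain ⟨α, rfl⟩ := Complex.norm_eq_one_iff u |>.1 hu
  exact P_exp α

/-- Every isometry of `ℂ` maps some Gaussian integer into the star. -/
theorem isometry_catch (g : ℂ ≃ᵢ ℂ) : ∃ m n : ℤ, g ((m : ℂ) + n * Complex.I) ∈ EC := by
  have hg : ∀ z, g z = g 0 + g.toRealLinearIsometryEquiv z := by
    intro z
    rw [IsometryEquiv.toRealLinearIsometryEquiv_apply]; ring
  obtain ⟨a, ha | ha⟩ := linear_isometry_complex g.toRealLinearIsometryEquiv
  · obtain ⟨m, n, h⟩ := P_unit (u := (a : ℂ)) (Circle.norm_coe a) (g 0)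
    refine ⟨m, n, ?_⟩
    rw [hg, ha, rotation_apply]
    exact h
  · obtain ⟨m, n, h⟩ := P_unit (u := (a : ℂ)) (Circle.norm_coe a) (g 0)
    refine ⟨m, -n, ?_⟩
    rw [hg, ha]
    simp only [LinearIsometryEquiv.trans_apply, rotation_apply, Complex.conjLIE_apply]
    have : (starRingEnd ℂ) ((m : ℂ) + ((-n : ℤ) : ℂ) * Complex.I) = (m : ℂ) + n * Complex.I := by
      simp
    rw [this]; exact h

end Pool.Agent.Y369.LC
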