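import Pool.Agent.Y369.LC.Rot

/-!
# Area of the star
-/

namespace Pool.Agent.Y369.LC

open Real MeasureTheory ENNReal

/-- The basic rhombus. -/
def Rh : Set ℂ := {p | 0 ≤ p.im ∧ p.im ≤ 1/2 ∧ -(1/2) ≤ tau / 2 * p.im - sS * p.re ∧
  tau / 2 * p.im - sS * p.re ≤ 0}

theorem measurable_Rh : MeasurableSet Rh := by
  apply IsClosed.measurableSet
  have h1 : Continuous fun p : ℂ => p.im := Complex.continuous_im
  have h2 : Continuous fun p : ℂ => tau / 2 * p.im - sS * p.re := by fun_prop
  exact (isClosed_le continuous_const h1).inter ((isClosed_le h1 continuous_const).inter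
    ((isClosed_le continuous_const h2).inter (isClosed_le h2 continuous_const)))

theorem volume_Rh : volume Rh = ENNReal.ofReal (1 / (4 * sS)) := by
  have hS := sS_pos
  let R2 : Set (ℝ × ℝ) := {q | 0 ≤ q.2 ∧ q.2 ≤ 1/2 ∧ -(1/2) ≤ tau / 2 * q.2 - sS * q.1 ∧
    tau / 2 * q.2 - sS * q.1 ≤ 0}
  have hR2 : MeasurableSet R2 := by
    apply IsClosed.measurableSet
    have h1 : Continuous fun p : ℝ × ℝ => p.2 := continuous_snd
    have h2 : Continuous fun p : ℝ × ℝ => tau / 2 * p.2 - sS * p.1 := by fun_prop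
    exact (isClosed_le continuous_const h1).inter ((isClosed_le h1 continuous_const).inter
      ((isClosed_le continuous_const h2).inter (isClosed_le h2 continuous_const)))
  have e1 : Rh = Complex.measurableEquivRealProd ⁻¹' R2 := rfl
  rw [e1, Complex.volume_preserving_equiv_real_prod.measure_preimage_equiv]
  rw [Measure.volume_eq_prod, Measure.prod_apply_symm hR2]
  have e2 : ∀ y : ℝ, volume ((fun x => (x, y)) ⁻¹' R2) =
      Set.indicator (Set.Icc (0:ℝ) (1/2)) (fun _ => ENNReal.ofReal (1 / (2 * sS))) y := by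
    intro y
    by_cases hy : y ∈ Set.Icc (0:ℝ) (1/2)
    · rw [Set.indicator_of_mem hy]
      have : (fun x => (x, y)) ⁻¹' R2 =
          Set.Icc (tau / 2 * y / sS) ((tau / 2 * y + 1/2) / sS) := by
        ext x
        simp only [R2, Set.mem_preimage, Set.mem_ofPred_eq, Set.mem_Icc]
        rw [div_le_iff₀ hS, le_div_iff₀ hS]
        constructor
        · rintro ⟨_, _, h3, h4⟩
          constructor <;> linarith
        · rintro ⟨h3, h4⟩
          exact ⟨hy.1, hy.2, by linarith, by linarith⟩
      rw [this, Real.volume_Icc]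
      congr 1
      field_simp
      ring
    · rw [Set.indicator_of_notMem hy]
      have : (fun x => (x, y)) ⁻¹' R2 = ∅ := by
        ext x
        simp only [R2, Set.mem_preimage, Set.mem_ofPred_eq, Set.mem_empty_iff_false, iff_false]
        rintro ⟨h1, h2, _, _⟩
        exact hy ⟨h1, h2⟩
      rw [this, measure_empty]
  simp_rw [e2]
  rw [lintegral_indicator measurableSet_Icc, setLIntegral_const, Real.volume_Icc,
    ← ENNReal.ofReal_mul (by positivity)]
  congr 1
  field_simp
  norm_num

/-- Rotation by `-72°`. -/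
noncomputable def rotz : ℂ ≃ₗᵢ[ℝ] ℂ :=
  rotation (Circle.exp (2 * π / 5))⁻¹

theorem circle_zeta : ((Circle.exp (2 * π / 5) : Circle) : ℂ) = zeta := by
  rw [Circle.coe_exp, Complex.exp_mul_I]
  apply Complex.ext
  · simp [zeta, tau, -Complex.ofReal_mul, -Complex.ofReal_div, ← Complex.ofReal_cos,
      ← Complex.ofReal_sin]
  · simp [zeta, sS, -Complex.ofReal_mul, -Complex.ofReal_div, ← Complex.ofReal_cos,
      ← Complex.ofReal_sin]

theorem rotz_apply (p : ℂ) : rotz p = (starRingEnd ℂ) zeta * p := by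
  rw [rotz, rotation_apply, Circle.coe_inv_eq_conj, circle_zeta]

theorem rotz_im (p : ℂ) : (rotz p).im = tau / 2 * p.im - sS * p.re := by
  rw [rotz_apply]; simp [zeta, Complex.mul_im]; ring

theorem rotz_b (p : ℂ) : tau / 2 * (rotz p).im - sS * (rotz p).re =
    tau * (tau / 2 * p.im - sS * p.re) - p.im := by
  rw [rotz_im, rotz_apply]
  simp only [zeta, Complex.mul_re, Complex.conj_re, Complex.conj_im]
  linear_combination (-p.im) * sS_sq

theorem EC_subset : EC ⊆ Rh ∪ rotz ⁻¹' Rh ∪ rotz ⁻¹' (rotz ⁻¹' Rh) ∪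
    rotz ⁻¹' (rotz ⁻¹' (rotz ⁻¹' Rh)) ∪ rotz ⁻¹' (rotz ⁻¹' (rotz ⁻¹' (rotz ⁻¹' Rh))) := by
  intro p hp
  obtain ⟨a, ha⟩ : ∃ a : ℝ, a = p.im := ⟨_, rfl⟩
  obtain ⟨b, hb⟩ : ∃ b : ℝ, b = tau / 2 * p.im - sS * p.re := ⟨_, rfl⟩
  have hp' : InE tau a b := by rw [ha, hb]; exact hp
  have a1 : (rotz p).im = b := by rw [rotz_im, hb]
  have b1 : tau / 2 * (rotz p).im - sS * (rotz p).re = tau * b - a := by
    rw [rotz_b, ← hb, ← ha]
  have a2 : (rotz (rotz p)).im = tau * b - a := by rw [rotz_im, b1]
  have b2 : tau / 2 * (rotz (rotz p)).im - sS * (rotz (rotz p)).re = -tau * (a + b) := by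
    rw [rotz_b, b1, a1]; linear_combination b * tau_sq
  have a3 : (rotz (rotz (rotz p))).im = -tau * (a + b) := by rw [rotz_im, b2]
  have b3 : tau / 2 * (rotz (rotz (rotz p))).im - sS * (rotz (rotz (rotz p))).re =
      tau * a - b := by
    rw [rotz_b, b2, a2]; linear_combination (-(a + b)) * tau_sq
  have a4 : (rotz (rotz (rotz (rotz p)))).im = tau * a - b := by rw [rotz_im, b3]
  have b4 : tau / 2 * (rotz (rotz (rotz (rotz p)))).im - sS * (rotz (rotz (rotz (rotz p)))).re =
      a := by
    rw [rotz_b, b3, a3]; linear_combination a * tau_sq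
  rcases hp' with h | h | h | h | h
  · left; left; left; left
    show _ ∧ _ ∧ _ ∧ _
    rw [← hb, ← ha]; exact h
  · left; left; left; right
    show _ ∧ _ ∧ _ ∧ _
    rw [b1, a1]; exact h
  · left; left; right
    show _ ∧ _ ∧ _ ∧ _
    rw [b2, a2]; exact h
  · left; right
    show _ ∧ _ ∧ _ ∧ _
    rw [b3, a3]; exact h
  · right
    show _ ∧ _ ∧ _ ∧ _
    rw [b4, a4]; exact h

theorem vol_preimage {A : Set ℂ} (hA : MeasurableSet A) :
    volume (rotz ⁻¹' A) = volume A ∧ MeasurableSet (rotz ⁻¹' A) :=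
  ⟨rotz.measurePreserving.measure_preimage hA.nullMeasurableSet,
    rotz.continuous.measurable hA⟩

theorem volume_EC_le : volume EC ≤ ENNReal.ofReal (5 / (4 * sS)) := by
  have hS := sS_pos
  obtain ⟨v1, m1⟩ := vol_preimage measurable_Rh
  obtain ⟨v2, m2⟩ := vol_preimage m1
  obtain ⟨v3, m3⟩ := vol_preimage m2
  obtain ⟨v4, m4⟩ := vol_preimage m3
  calc volume EC ≤ volume (Rh ∪ rotz ⁻¹' Rh ∪ rotz ⁻¹' (rotz ⁻¹' Rh) ∪
      rotz ⁻¹' (rotz ⁻¹' (rotz ⁻¹' Rh)) ∪ rotz ⁻¹' (rotz ⁻¹' (rotz ⁻¹' (rotz ⁻¹' Rh)))) :=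
        measure_mono EC_subset
    _ ≤ volume Rh + volume (rotz ⁻¹' Rh) + volume (rotz ⁻¹' (rotz ⁻¹' Rh)) +
      volume (rotz ⁻¹' (rotz ⁻¹' (rotz ⁻¹' Rh))) +
      volume (rotz ⁻¹' (rotz ⁻¹' (rotz ⁻¹' (rotz ⁻¹' Rh)))) := by
        refine (measure_union_le _ _).trans ?_
        gcongr
        refine (measure_union_le _ _).trans ?_
        gcongr
        refine (measure_union_le _ _).trans ?_
        gcongr
        exact measure_union_le _ _
    _ = ENNReal.ofReal (5 / (4 * sS)) := by
        rw [v4, v3, v2, v1, volume_Rh]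
        rw [← ENNReal.ofReal_add (by positivity) (by positivity),
          ← ENNReal.ofReal_add (by positivity) (by positivity),
          ← ENNReal.ofReal_add (by positivity) (by positivity),
          ← ENNReal.ofReal_add (by positivity) (by positivity)]
        congr 1
        ring

/-- The star is closed. -/
theorem isClosed_EC : IsClosed EC := by
  have h1 : Continuous fun p : ℂ => p.im := Complex.continuous_im
  have h2 : Continuous fun p : ℂ => tau / 2 * p.im - sS * p.re := by fun_prop
  have key : ∀ f g : ℂ → ℝ, Continuous f → Continuous g →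
      IsClosed {p : ℂ | 0 ≤ f p ∧ f p ≤ 1/2 ∧ -(1/2) ≤ g p ∧ g p ≤ 0} := by
    intro f g hf hg
    exact (isClosed_le continuous_const hf).inter ((isClosed_le hf continuous_const).inter
      ((isClosed_le continuous_const hg).inter (isClosed_le hg continuous_const)))
  exact (key _ _ h1 h2).union ((key _ _ h2 (by fun_prop)).union
    ((key _ _ (by fun_prop) (by fun_prop)).union
    ((key _ _ (by fun_prop) (by fun_prop)).union (key _ _ (by fun_prop) h1))))

/-- The star is bounded. -/
theorem EC_bounded : EC ⊆ Metric.closedBall 0 4 := by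
  have hS := sS_pos
  have hSk := sS_sq
  obtain ⟨t1, t2⟩ := tau_lt tau_sq tau_pos
  have S1 : 0.9 < sS := by nlinarith
  have key : ∀ a b : ℝ, InE tau a b → |a| ≤ 1 ∧ |b| ≤ 1 := by
    intro a b h
    have ht := tau_sq
    rcases h with h | h | h | h | h <;> obtain ⟨h1, h2, h3, h4⟩ := h
    · constructor <;> rw [abs_le] <;> constructor <;> linarith
    · have k1 : 0 ≤ tau * b := mul_nonneg tau_pos.le h1
      have k2 : tau * b ≤ 1/2 := by nlinarith
      constructor <;> rw [abs_le] <;> constructor <;> linarith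
    · have k0 : 0 ≤ a + b := by
        by_contra hcon
        push Not at hcon
        nlinarith [mul_pos tau_pos (neg_pos.2 hcon)]
      have k1 : a + b ≤ 1 := by
        by_contra hcon
        push Not at hcon
        nlinarith [mul_pos tau_pos (sub_pos.2 hcon)]
      have k2 : 0 ≤ (1 + tau) * b := by nlinarith
      have k3 : 0 ≤ b := by
        by_contra hcon
        push Not at hcon
        nlinarith [mul_pos tau_pos (neg_pos.2 hcon)]
      have k4 : (1 + tau) * b ≤ 1.5 := by nlinarith
      have k5 : b ≤ 1 := by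
        by_contra hcon
        push Not at hcon
        nlinarith [mul_pos tau_pos (sub_pos.2 hcon)]
      constructor <;> rw [abs_le] <;> constructor <;> nlinarith
    · have k0 : a + b ≤ 0 := by
        by_contra hcon
        push Not at hcon
        nlinarith [mul_pos tau_pos hcon]
      have k1 : -1 ≤ a + b := by
        by_contra hcon
        push Not at hcon
        nlinarith [mul_pos tau_pos (sub_pos.2 hcon)]
      have k2 : (1 + tau) * a ≤ 0 := by nlinarith
      have k3 : a ≤ 0 := by
        by_contra hcon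
        push Not at hcon
        nlinarith [mul_pos tau_pos hcon]
      have k4 : -1.5 ≤ (1 + tau) * a := by nlinarith
      have k5 : -1 ≤ a := by
        by_contra hcon
        push Not at hcon
        nlinarith [mul_pos tau_pos (sub_pos.2 hcon)]
      constructor <;> rw [abs_le] <;> constructor <;> nlinarith
    · have k1 : tau * a ≤ 0 := by nlinarith [mul_nonneg tau_pos.le (neg_nonneg.2 h4)]
      have k2 : -(1/2) ≤ tau * a := by nlinarith
      constructor <;> rw [abs_le] <;> constructor <;> linarith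
  intro p hp
  obtain ⟨ha, hb⟩ := key _ _ hp
  rw [mem_closedBall_zero_iff]
  have hre : |p.re| ≤ 3 := by
    rw [abs_le] at ha hb ⊢
    constructor <;> nlinarith
  have := Complex.norm_le_abs_re_add_abs_im p
  linarith

theorem isCompact_EC : IsCompact EC :=
  (isCompact_closedBall (0 : ℂ) 4).of_isClosed_subset isClosed_EC EC_bounded

end Pool.Agent.Y369.LC
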